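import Mathlib
import Pool.Agent.H238R2.HY.Struct

/-!
# The edge-domatic number is at least the minimum degree

For every finite simple graph `G` we show `dom (L(G)) ≥ δ(G)`.

Proof idea. Let `δ ≥ 2` and let `I` be a maximal independent set. Every vertex outside `I` has a
neighbour in `I`. For every `w ∉ I` keep at `w` only `min (|N(w) \ I|, δ - 1)` of the edges going
to vertices outside `I`, and detach the other half-edges. The resulting graph has maximum degree
at most `δ - 1`, so by Vizing's theorem it has a proper edge colouring with `δ` colours. The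
colours still missing at `w` are put on the edges from `w` to `I`. In the end every vertex outside
`I` sees all `δ` colours, and every edge has an end outside `I`.
-/

namespace Pool.Agent.Results.MP_7b5b6d_co.MinDegreeBound

open Function Finset

/-- The domatic number of a graph `H`: the largest `k` such that the vertex set can be partitioned
into `k` dominating sets (the fibres of a surjective map `f` to `Fin k`). -/
noncomputable def domaticNumber {W : Type*} (H : SimpleGraph W) : ℕ :=
  sSup {k | ∃ f : W → Fin k, Surjective f ∧ ∀ i : Fin k, ∀ w : W, ∃ x, f x = i ∧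
    (x = w ∨ H.Adj x w)}

/-- There is a maximal independent set. -/
theorem exists_maximal_indep {V : Type} [Fintype V] (G : SimpleGraph V) :
    ∃ I : Finset V, (∀ u ∈ I, ∀ v ∈ I, ¬ G.Adj u v) ∧ ∀ w, w ∉ I → ∃ z ∈ I, G.Adj w z := by
  classical
  obtain ⟨I, hI, hmax⟩ := Finset.exists_max_image
    (Finset.univ.filter (fun I : Finset V => ∀ u ∈ I, ∀ v ∈ I, ¬ G.Adj u v))
    (fun I => I.card) ⟨∅, by simp⟩
  rw [Finset.mem_filter] at hI
  refine ⟨I, hI.2, fun w hw => ?_⟩
  by_contra hcon
  push Not at hcon
  have h1 : insert w I ∈ Finset.univ.filter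
      (fun I : Finset V => ∀ u ∈ I, ∀ v ∈ I, ¬ G.Adj u v) := by
    rw [Finset.mem_filter]
    refine ⟨Finset.mem_univ _, ?_⟩
    intro u hu v hv
    rw [Finset.mem_insert] at hu hv
    rcases hu with rfl | hu <;> rcases hv with rfl | hv
    · exact G.loopless.irrefl _
    · exact hcon v hv
    · exact fun h => hcon u hu h.symm
    · exact hI.2 u hu v hv
  have h2 := hmax _ h1
  rw [Finset.card_insert_of_notMem hw] at h2
  omega

/-- A finite set can be mapped onto a set that is not larger. -/
theorem exists_onto {V : Type} (A : Finset V) (B : Finset ℕ) (h : B.card ≤ A.card) (b : ℕ) :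
    ∃ g : V → ℕ, (∀ i ∈ B, ∃ z ∈ A, g z = i) ∧ ∀ z, g z ∈ B ∨ g z = b := by
  classical
  obtain ⟨A', hA', hc⟩ := Finset.exists_subset_card_eq h
  have e : A' ≃ B := Fintype.equivOfCardEq (by simp [hc])
  refine ⟨fun z => if hz : z ∈ A' then (e ⟨z, hz⟩ : ℕ) else b, ?_, ?_⟩
  · intro i hi
    refine ⟨(e.symm ⟨i, hi⟩ : V), hA' (e.symm ⟨i, hi⟩).2, ?_⟩
    simp
  · intro z
    by_cases hz : z ∈ A'
    · left
      simp [hz]
    · right
      simp [hz]

/-- The key colouring: every vertex outside an independent set sees all colours. -/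
theorem colouring {V : Type} [Fintype V] (G : SimpleGraph V) [DecidableRel G.Adj]
    (d : ℕ) (hd : 2 ≤ d) (hdeg : ∀ v, d ≤ G.degree v) (I : Finset V)
    (hI : ∀ u ∈ I, ∀ v ∈ I, ¬ G.Adj u v) (hmax : ∀ w, w ∉ I → ∃ z ∈ I, G.Adj w z) :
    ∃ col : V → V → ℕ, (∀ u v, col u v = col v u) ∧ (∀ u v, G.Adj u v → col u v < d) ∧
      ∀ w, w ∉ I → ∀ i < d, ∃ z, G.Adj w z ∧ col w z = i := by
  classical
  -- neighbours outside `I` and inside `I`
  let O : V → Finset V := fun w => (G.neighborFinset w).filter (fun z => z ∉ I)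
  let N : V → Finset V := fun w => (G.neighborFinset w).filter (fun z => z ∈ I)
  have hON : ∀ w, (O w).card + (N w).card = G.degree w := by
    intro w
    have := Finset.card_filter_add_card_filter_not (s := G.neighborFinset w) (fun z => z ∈ I)
    rw [SimpleGraph.card_neighborFinset_eq_degree] at this
    simp only [O, N]
    omega
  have hN1 : ∀ w, w ∉ I → 1 ≤ (N w).card := by
    intro w hw
    obtain ⟨z, hz, hwz⟩ := hmax w hw
    refine Finset.card_pos.2 ⟨z, ?_⟩
    simp only [N, Finset.mem_filter, SimpleGraph.mem_neighborFinset]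
    exact ⟨hwz, hz⟩
  -- the kept half-edges
  have hF : ∀ w, ∃ F ⊆ O w, F.card = min (O w).card (d - 1) := fun w =>
    Finset.exists_subset_card_eq (min_le_left _ _)
  choose F hFsub hFcard using hF
  -- the split graph
  let e : V → V → V ⊕ V × V := fun u v => if v ∈ F u then Sum.inl u else Sum.inr (u, v)
  have e_inj : ∀ u v u' v', e u v = e u' v' → u = u' := by
    intro u v u' v' h
    simp only [e] at h
    split_ifs at h
    · exact Sum.inl.inj h
    · exact (Prod.mk.inj (Sum.inr.inj h)).1
  let Γ : SimpleGraph (V ⊕ V × V) :=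
    { Adj := fun a b => ∃ u v, G.Adj u v ∧ u ∉ I ∧ v ∉ I ∧ a = e u v ∧ b = e v u
      symm := ⟨fun a b ⟨u, v, h1, h2, h3, h4, h5⟩ => ⟨v, u, h1.symm, h3, h2, h5, h4⟩⟩
      loopless := ⟨fun a ⟨u, v, h1, _, _, h4, h5⟩ => h1.ne (e_inj u v v u (h4.symm.trans h5))⟩ }
  have hΓdeg : ∀ a, Γ.degree a ≤ d - 1 := by
    intro a
    rw [← SimpleGraph.card_neighborFinset_eq_degree]
    cases a with
    | inl w =>
      refine le_trans (Finset.card_le_card (t := (F w).image (fun v => e v w)) ?_) ?_
      · intro b hb
        rw [SimpleGraph.mem_neighborFinset] at hb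
        obtain ⟨u, v, huv, hu, hv, h1, rfl⟩ := hb
        have h2 : v ∈ F u := by
          by_contra hne
          simp only [e, hne, if_false] at h1
          cases h1
        have h3 : u = w := by
          simp only [e, h2, if_true] at h1
          exact (Sum.inl.inj h1).symm
        subst h3
        exact Finset.mem_image.2 ⟨v, h2, rfl⟩
      · refine Finset.card_image_le.trans ?_
        rw [hFcard]
        exact min_le_right _ _
    | inr p =>
      refine le_trans (Finset.card_le_card (t := {e p.2 p.1}) ?_) ?_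
      · intro b hb
        rw [SimpleGraph.mem_neighborFinset] at hb
        obtain ⟨u, v, huv, hu, hv, h1, rfl⟩ := hb
        have h2 : v ∉ F u := by
          intro h2
          simp only [e, h2, if_true] at h1
          cases h1
        have h3 : p = (u, v) := by
          simp only [e, h2, if_false] at h1
          exact Sum.inr.inj h1
        subst h3
        simp
      · simp only [Finset.card_singleton]
        omega
  obtain ⟨c, hc1, hc2, hc3⟩ := Pool.Agent.H238R2.HY.vizing Γ (d - 1) hΓdeg
  have hadj : ∀ u v, G.Adj u v → u ∉ I → v ∉ I → Γ.Adj (e u v) (e v u) :=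
    fun u v h1 h2 h3 => ⟨u, v, h1, h2, h3, rfl, rfl⟩
  -- colours seen on the kept half-edges
  let seen : V → Finset ℕ := fun w => (F w).image (fun v => c (e w v) (e v w))
  have hOmem : ∀ w v, v ∈ O w → G.Adj w v ∧ v ∉ I := by
    intro w v hv
    simp only [O, Finset.mem_filter, SimpleGraph.mem_neighborFinset] at hv
    exact hv
  have hseen : ∀ w, w ∉ I → (seen w).card = (F w).card := by
    intro w hw
    apply Finset.card_image_of_injOn
    intro v hv v' hv' h
    have hv := Finset.mem_coe.1 hv
    have hv' := Finset.mem_coe.1 hv'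
    by_contra hne
    have h1 := hOmem w v (hFsub w hv)
    have h2 := hOmem w v' (hFsub w hv')
    have a1 := hadj w v h1.1 hw h1.2
    have a2 := hadj w v' h2.1 hw h2.2
    have e1 : e w v = Sum.inl w := by simp only [e, hv, if_true]
    have e2 : e w v' = Sum.inl w := by simp only [e, hv', if_true]
    rw [e1] at a1
    rw [e2] at a2
    have h3 : e v w ≠ e v' w := fun h => hne (e_inj _ _ _ _ h)
    have := hc3 _ _ _ a1 a2 h3
    simp only [e1, e2] at h
    exact this h
  have hseen_lt : ∀ w, w ∉ I → seen w ⊆ Finset.range d := by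
    intro w hw i hi
    simp only [seen, Finset.mem_image] at hi
    obtain ⟨v, hv, rfl⟩ := hi
    have h1 := hOmem w v (hFsub w hv)
    have := hc2 _ _ (hadj w v h1.1 hw h1.2)
    rw [Finset.mem_range]
    omega
  -- the missing colours go to the edges towards `I`
  have hg : ∀ w, ∃ g : V → ℕ, w ∉ I →
      (∀ i ∈ Finset.range d \ seen w, ∃ z ∈ N w, g z = i) ∧
        ∀ z, g z ∈ Finset.range d \ seen w ∨ g z = 0 := by
    intro w
    by_cases hw : w ∈ I
    · exact ⟨fun _ => 0, fun h => absurd hw h⟩
    · have hcard : (Finset.range d \ seen w).card ≤ (N w).card := by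
        rw [Finset.card_sdiff_of_subset (hseen_lt w hw), Finset.card_range, hseen w hw, hFcard]
        have h1 := hON w
        have h2 := hdeg w
        have h3 := hN1 w hw
        rcases min_choice (O w).card (d - 1) with h | h <;> rw [h] <;> omega
      obtain ⟨g, hg1, hg2⟩ := exists_onto (N w) (Finset.range d \ seen w) hcard 0
      exact ⟨g, fun _ => ⟨hg1, hg2⟩⟩
  choose g hg using hg
  have hglt : ∀ w, w ∉ I → ∀ z, g w z < d := by
    intro w hw z
    rcases (hg w hw).2 z with h | h
    · exact Finset.mem_range.1 (Finset.mem_sdiff.1 h).1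
    · omega
  refine ⟨fun u v => if u ∈ I then (if v ∈ I then 0 else g v u) else
    (if v ∈ I then g u v else c (e u v) (e v u)), ?_, ?_, ?_⟩
  · intro u v
    by_cases hu : u ∈ I <;> by_cases hv : v ∈ I <;> simp only [hu, hv, if_true, if_false]
    exact hc1 _ _
  · intro u v huv
    by_cases hu : u ∈ I <;> by_cases hv : v ∈ I <;> simp only [hu, hv, if_true, if_false]
    · omega
    · exact hglt v hv u
    · exact hglt u hu v
    · have := hc2 _ _ (hadj u v huv hu hv)
      omega
  · intro w hw i hi
    by_cases hs : i ∈ seen w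
    · simp only [seen, Finset.mem_image] at hs
      obtain ⟨v, hv, rfl⟩ := hs
      have h1 := hOmem w v (hFsub w hv)
      exact ⟨v, h1.1, by simp only [hw, h1.2, if_false]⟩
    · obtain ⟨z, hz, hz'⟩ := (hg w hw).1 i
        (Finset.mem_sdiff.2 ⟨Finset.mem_range.2 hi, hs⟩)
      simp only [N, Finset.mem_filter, SimpleGraph.mem_neighborFinset] at hz
      exact ⟨z, hz.1, by simp only [hw, hz.2, if_false, if_true]; exact hz'⟩

/-- **Main result.** Every finite simple graph `G` satisfies `dom (L(G)) ≥ δ(G)`. -/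
theorem result (V : Type) [Fintype V] (G : SimpleGraph V) [DecidableRel G.Adj] :
    G.minDegree ≤ domaticNumber G.lineGraph := by
  classical
  have hbdd : BddAbove {k | ∃ f : G.edgeSet → Fin k, Surjective f ∧ ∀ i : Fin k,
      ∀ w : G.edgeSet, ∃ x, f x = i ∧ (x = w ∨ G.lineGraph.Adj x w)} := by
    refine ⟨Fintype.card G.edgeSet, ?_⟩
    rintro k ⟨f, hf, -⟩
    simpa using Fintype.card_le_of_surjective f hf
  obtain h0 | hpos := Nat.eq_zero_or_pos G.minDegree
  · omega
  have hdeg : ∀ v, G.minDegree ≤ G.degree v := fun v => G.minDegree_le_degree v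
  have hne : Nonempty V := by
    by_contra hcon
    rw [not_nonempty_iff] at hcon
    have : G.minDegree = 0 := by simp
    omega
  obtain ⟨v0⟩ := hne
  obtain ⟨u0, hu0⟩ : ∃ u, G.Adj v0 u := by
    rw [← SimpleGraph.degree_pos_iff_exists_adj]
    exact lt_of_lt_of_le hpos (hdeg v0)
  let e0 : G.edgeSet := ⟨s(v0, u0), hu0⟩
  obtain h1 | h2 : G.minDegree = 1 ∨ 2 ≤ G.minDegree := by omega
  · rw [h1]
    apply le_csSup hbdd
    exact ⟨fun _ => 0, fun i => ⟨e0, (Subsingleton.elim _ _)⟩,
      fun i w => ⟨w, Subsingleton.elim _ _, Or.inl rfl⟩⟩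
  · obtain ⟨I, hI, hmax⟩ := exists_maximal_indep G
    obtain ⟨col, hsymm, hlt, hall⟩ := colouring G G.minDegree h2 hdeg I hI hmax
    apply le_csSup hbdd
    have hlt' : ∀ x : G.edgeSet, Sym2.lift ⟨col, hsymm⟩ x.1 < G.minDegree := by
      rintro ⟨x, hx⟩
      induction x with
      | _ a b => exact hlt a b hx
    have hdom : ∀ i : Fin G.minDegree, ∀ w : G.edgeSet,
        ∃ x : G.edgeSet, (⟨Sym2.lift ⟨col, hsymm⟩ x.1, hlt' x⟩ : Fin G.minDegree) = i ∧
          (x = w ∨ G.lineGraph.Adj x w) := by
      intro i w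
      have key : ∀ a : V, a ∈ w.1 → a ∉ I → ∃ x : G.edgeSet,
          (⟨Sym2.lift ⟨col, hsymm⟩ x.1, hlt' x⟩ : Fin G.minDegree) = i ∧
          (x = w ∨ G.lineGraph.Adj x w) := by
        intro a haw ha
        obtain ⟨z, hz, hcol⟩ := hall a ha i.val i.isLt
        refine ⟨⟨s(a, z), hz⟩, Fin.ext hcol, ?_⟩
        by_cases hxw : (⟨s(a, z), hz⟩ : G.edgeSet) = w
        · exact Or.inl hxw
        · right
          rw [SimpleGraph.lineGraph_adj_iff_exists]
          exact ⟨hxw, a, by simp, haw⟩
      obtain ⟨w, hw⟩ := w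
      induction w with
      | _ a b =>
        by_cases ha : a ∈ I
        · have hb : b ∉ I := fun hb => hI a ha b hb hw
          exact key b (by simp) hb
        · exact key a (by simp) ha
    refine ⟨fun x => ⟨Sym2.lift ⟨col, hsymm⟩ x.1, hlt' x⟩, ?_, hdom⟩
    intro i
    obtain ⟨x, hx, -⟩ := hdom i e0
    exact ⟨x, hx⟩

end Pool.Agent.Results.MP_7b5b6d_co.MinDegreeBound
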